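import Mathlib
import Pool.Agent.H55.SubsetSums

namespace Pool.Agent.Results.MP_9bce75_nt.Counterexample

/-- `a n` is the number of distinct sums of non-empty sets of proper divisors of `n`. -/
def a (n : ℕ) : ℕ :=
  (((Nat.properDivisors n).powerset.erase ∅).image (fun S => ∑ d ∈ S, d)).card

/-- `n = 1652 = 28 * 59` has `a n = n` but is not perfect. -/
theorem result : ∃ n : ℕ, 0 < n ∧ a n = n ∧ ∑ d ∈ Nat.properDivisors n, d ≠ n :=
  ⟨1652, by norm_num, Pool.Agent.H55.SubsetSums.main.1, Pool.Agent.H55.SubsetSums.main.2⟩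

end Pool.Agent.Results.MP_9bce75_nt.Counterexample
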